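import Pool.Agent.SmW.Def

/-!
# Independent noises: probability of missing given targets

prob_det: the events {e x ω ∉ J x}, x in X, are independent (iIndepFun e), so the probability of the
intersection is the product of the P(e x ∉ J x) = 1 - Σ_{j in J x} P(e x = j) <= 1 - q κ
<= exp(- q κ).

prob_fubini: let Y, X be disjoint finite sets of indices.  By independence the tuples
U = (e y)_{y in Y} and V = (e x)_{x in X} are independent (iIndepFun.indepFun_finset), so the law
of (U, V) is the product law, and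
P((U,V) in E) = ∫ P(V in E_u) dlaw_U(u) <= sup_u P(V in E_u).  Here E is described by a predicate
G v that depends only on the values of v on Y ∪ X, and the hypothesis says that for EVERY fixed
assignment u of the noises on Y the probability (over V) is at most ε: mix u v takes the value u on
Y and v elsewhere.  All sets are measurable because the spaces (Y -> ℕ), (X -> ℕ) are countable and
discrete.
-/

set_option linter.all false

namespace Pool.Agent.SmW

open MeasureTheory ProbabilityTheory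

theorem prob_det {Ω : Type*} [MeasurableSpace Ω] (P : Measure Ω) [IsProbabilityMeasure P]
    (e : ℕ → Ω → ℕ) (hm : ∀ n, Measurable (e n)) (hi : iIndepFun e P) (X : Finset ℕ)
    (J : ℕ → Finset ℕ) (q : ℝ) (κ : ℕ) (hq : 0 ≤ q) (hJ : ∀ x ∈ X, κ ≤ (J x).card)
    (hP : ∀ x ∈ X, ∀ j ∈ J x, q ≤ P.real {ω | e x ω = j}) :
    P.real {ω | ∀ x ∈ X, e x ω ∉ J x} ≤ Real.exp (-(q * κ * X.card)) := by
  have h1 : {ω | ∀ x ∈ X, e x ω ∉ J x} = ⋂ x ∈ X, (e x) ⁻¹' ((J x : Set ℕ)ᶜ) := by
    ext ω
    simp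
  have h2 := hi.measure_inter_preimage_eq_mul X (sets := fun x => ((J x : Set ℕ)ᶜ))
    (fun x _ => MeasurableSet.of_discrete)
  have h3 : P.real {ω | ∀ x ∈ X, e x ω ∉ J x} =
      ∏ x ∈ X, P.real ((e x) ⁻¹' ((J x : Set ℕ)ᶜ)) := by
    rw [h1, measureReal_def, h2, ENNReal.toReal_prod]
    rfl
  have h4 : ∀ x ∈ X, P.real ((e x) ⁻¹' ((J x : Set ℕ)ᶜ)) ≤ Real.exp (-(q * κ)) := by
    intro x hx
    have h5 : P.real ((e x) ⁻¹' (J x : Set ℕ)) = ∑ j ∈ J x, P.real {ω | e x ω = j} := by
      have e1 : (e x) ⁻¹' (J x : Set ℕ) = ⋃ j ∈ J x, {ω | e x ω = j} := by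
        ext ω
        simp
      rw [e1, measureReal_biUnion_finset]
      · intro i _ j _ hij
        rw [Function.onFun, Set.disjoint_left]
        intro ω hω hω'
        exact hij (hω.symm.trans hω')
      · intro j _
        exact (hm x) (measurableSet_singleton j)
    have h6 : (κ : ℝ) * q ≤ P.real ((e x) ⁻¹' (J x : Set ℕ)) := by
      rw [h5]
      calc (κ : ℝ) * q ≤ ((J x).card : ℝ) * q :=
            mul_le_mul_of_nonneg_right (by exact_mod_cast hJ x hx) hq
        _ = ∑ j ∈ J x, q := by rw [Finset.sum_const, nsmul_eq_mul]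
        _ ≤ _ := Finset.sum_le_sum fun j hj => hP x hx j hj
    have h7 : P.real ((e x) ⁻¹' ((J x : Set ℕ)ᶜ)) = 1 - P.real ((e x) ⁻¹' (J x : Set ℕ)) := by
      rw [Set.preimage_compl, probReal_compl_eq_one_sub]
      exact (hm x) MeasurableSet.of_discrete
    rw [h7]
    have h8 := Real.add_one_le_exp (-(q * κ))
    nlinarith
  rw [h3]
  calc ∏ x ∈ X, P.real ((e x) ⁻¹' ((J x : Set ℕ)ᶜ)) ≤ ∏ x ∈ X, Real.exp (-(q * κ)) :=
        Finset.prod_le_prod (fun x _ => measureReal_nonneg) h4
    _ = Real.exp (-(q * κ * X.card)) := by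
        rw [Finset.prod_const, ← Real.exp_nat_mul]
        congr 1
        ring

/-- the assignment which is u on Y and v elsewhere -/
noncomputable def mix (Y : Finset ℕ) (u v : ℕ → ℕ) : ℕ → ℕ := fun n => if n ∈ Y then u n else v n

theorem prob_fubini {Ω : Type*} [MeasurableSpace Ω] (P : Measure Ω) [IsProbabilityMeasure P]
    (e : ℕ → Ω → ℕ) (hm : ∀ n, Measurable (e n)) (hi : iIndepFun e P) (Y X : Finset ℕ)
    (hd : Disjoint Y X) (G : (ℕ → ℕ) → Prop)
    (hG : ∀ v v' : ℕ → ℕ, (∀ n ∈ Y ∪ X, v n = v' n) → (G v ↔ G v')) (ε : ℝ)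
    (hε : ∀ u : ℕ → ℕ, P.real {ω | G (mix Y u (fun n => e n ω))} ≤ ε) :
    P.real {ω | G (fun n => e n ω)} ≤ ε := by
  classical
  have hε0 : 0 ≤ ε := le_trans measureReal_nonneg (hε (fun _ => 0))
  set U : Ω → (Y → ℕ) := fun ω i => e i ω with hU
  set V : Ω → (X → ℕ) := fun ω i => e i ω with hV
  have hUm : Measurable U := measurable_pi_lambda _ fun i => hm i
  have hVm : Measurable V := measurable_pi_lambda _ fun i => hm i
  have hind : IndepFun U V P := hi.indepFun_finset Y X hd hm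
  -- extensions by zero
  set eY : (Y → ℕ) → ℕ → ℕ := fun u n => if h : n ∈ Y then u ⟨n, h⟩ else 0 with heY
  set eX : (X → ℕ) → ℕ → ℕ := fun v n => if h : n ∈ X then v ⟨n, h⟩ else 0 with heX
  have hXY : ∀ n ∈ X, n ∉ Y := fun n hn hn' => (Finset.disjoint_left.1 hd) hn' hn
  -- the sections
  set S : (Y → ℕ) → Set (X → ℕ) := fun u => {v | G (mix Y (eY u) (eX v))} with hS
  have hSV : ∀ u, V ⁻¹' (S u) = {ω | G (mix Y (eY u) (fun n => e n ω))} := by
    intro u
    ext ω
    simp only [hS, Set.mem_preimage, Set.mem_ofPred_eq]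
    apply hG
    intro n hn
    unfold mix
    by_cases hnY : n ∈ Y
    · rw [if_pos hnY, if_pos hnY]
    · have hnX : n ∈ X := by
        rcases Finset.mem_union.1 hn with h | h
        · exact absurd h hnY
        · exact h
      rw [if_neg hnY, if_neg hnY, heX]
      simp only [dif_pos hnX, hV]
  have hsec : ∀ u, {ω | G (fun n => e n ω)} ∩ U ⁻¹' {u} = U ⁻¹' {u} ∩ V ⁻¹' (S u) := by
    intro u
    rw [hSV]
    ext ω
    simp only [Set.mem_inter_iff, Set.mem_preimage, Set.mem_singleton_iff, Set.mem_ofPred_eq]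
    rw [and_comm]
    refine and_congr_right fun hu => ?_
    apply hG
    intro n hn
    unfold mix
    by_cases hnY : n ∈ Y
    · rw [if_pos hnY, heY]
      simp only [dif_pos hnY]
      rw [← hu]
    · rw [if_neg hnY]
  have hSm : ∀ u, MeasurableSet (S u) := fun u => (Set.to_countable (S u)).measurableSet
  have hsm : ∀ u : Y → ℕ, MeasurableSet ({u} : Set (Y → ℕ)) := fun u => measurableSet_singleton u
  have hdec : {ω | G (fun n => e n ω)} = ⋃ u, ({ω | G (fun n => e n ω)} ∩ U ⁻¹' {u}) := by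
    ext ω
    simp
  have hdisj : Pairwise (Function.onFun Disjoint fun u : Y → ℕ => U ⁻¹' {u}) := by
    intro u u' huu
    rw [Function.onFun, Set.disjoint_left]
    intro ω h h'
    exact huu ((Set.mem_singleton_iff.1 h).symm.trans (Set.mem_singleton_iff.1 h'))
  have hbd : ∀ u, P (V ⁻¹' (S u)) ≤ ENNReal.ofReal ε := by
    intro u
    rw [hSV]
    have h1 := hε (eY u)
    rw [← ofReal_measureReal]
    exact ENNReal.ofReal_le_ofReal h1
  have hsum1 : ∑' u : Y → ℕ, P (U ⁻¹' {u}) = 1 := by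
    rw [← measure_iUnion hdisj (fun u => hUm (hsm u))]
    have h1 : (⋃ u : Y → ℕ, U ⁻¹' {u}) = Set.univ := by
      ext ω
      simp
    rw [h1, measure_univ]
  have hle : P {ω | G (fun n => e n ω)} ≤ ENNReal.ofReal ε := by
    rw [hdec]
    calc P (⋃ u, ({ω | G (fun n => e n ω)} ∩ U ⁻¹' {u}))
        ≤ ∑' u, P ({ω | G (fun n => e n ω)} ∩ U ⁻¹' {u}) := measure_iUnion_le _
      _ = ∑' u, P (U ⁻¹' {u}) * P (V ⁻¹' (S u)) := by
          congr 1
          funext u
          rw [hsec, hind.measure_inter_preimage_eq_mul _ _ (hsm u) (hSm u)]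
      _ ≤ ∑' u, P (U ⁻¹' {u}) * ENNReal.ofReal ε :=
          ENNReal.tsum_le_tsum fun u => mul_le_mul_right (hbd u) _
      _ = ENNReal.ofReal ε := by rw [ENNReal.tsum_mul_right, hsum1, one_mul]
  rw [measureReal_def]
  exact ENNReal.toReal_le_of_le_ofReal hε0 hle

end Pool.Agent.SmW
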