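import Pool.Agent.SmW.Count
import Pool.Agent.SmW.Prob

/-!
# One step

Let F v be a set depending only on the values of v on the finite set Y, X disjoint from Y.  The
probability that F is Dense with gap L on [α, β] but no element of
step k (F e) X e lies in (m - L', m] is at most exp(-(q ((M/(2L)) L') |X|)).

Proof: prob_fubini with
G v := Dense (F v) L α β ∧ ¬ ∃ b ∈ step k (F v) X v, b ≤ m ∧ m < b + L'.
Fix u; B := F u = F (mix Y u v) (as Y and X are disjoint, mix Y u v agrees with v on X).  If B is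
not Dense the event is empty.  If it is, put
J x := the set of j < M with ∃ b ∈ B, b + (x^k + j) ≤ m ∧ m < b + (x^k + j) + L' (filter of
range M); count gives (M/(2L)) L' ≤ |J x|, and the event is contained in {∀ x ∈ X, e x ∉ J x}; apply
prob_det.
-/

namespace Pool.Agent.SmW

open MeasureTheory ProbabilityTheory

theorem prob_step {Ω : Type*} [MeasurableSpace Ω] (P : Measure Ω) [IsProbabilityMeasure P]
    (e : ℕ → Ω → ℕ) (hm : ∀ n, Measurable (e n)) (hi : iIndepFun e P) (Y X : Finset ℕ)
    (hd : Disjoint Y X) (F : (ℕ → ℕ) → Set ℕ)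
    (hF : ∀ v v' : ℕ → ℕ, (∀ y ∈ Y, v y = v' y) → F v = F v')
    (k L L' α β M m : ℕ) (q : ℝ) (hq : 0 ≤ q)
    (hP : ∀ x ∈ X, ∀ j < M, q ≤ P.real {ω | e x ω = j})
    (hL' : 1 ≤ L') (hLL : L' ≤ L) (hmβ : m ≤ β) (hlow : ∀ x ∈ X, α + x ^ k + M ≤ m) :
    P.real {ω | Dense (F (fun n => e n ω)) L α β ∧
        ¬ ∃ b ∈ step k (F (fun n => e n ω)) X (fun n => e n ω), b ≤ m ∧ m < b + L'} ≤
      Real.exp (-(q * (((M / (2 * L)) * L' : ℕ) : ℝ) * X.card)) := by
  classical
  refine prob_fubini P e hm hi Y X hd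
    (fun v => Dense (F v) L α β ∧ ¬ ∃ b ∈ step k (F v) X v, b ≤ m ∧ m < b + L') ?_ _ ?_
  · intro v v' hv
    have h1 : F v = F v' := hF v v' (fun y hy => hv y (Finset.mem_union_left _ hy))
    have h2 : step k (F v) X v = step k (F v') X v' := by
      rw [h1]
      ext b
      simp only [step, Set.mem_setOf_eq]
      constructor
      · rintro ⟨a, ha, x, hx, rfl⟩
        exact ⟨a, ha, x, hx, by rw [hv x (Finset.mem_union_right _ hx)]⟩
      · rintro ⟨a, ha, x, hx, rfl⟩
        exact ⟨a, ha, x, hx, by rw [hv x (Finset.mem_union_right _ hx)]⟩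
    show (Dense (F v) L α β ∧ ¬ ∃ b ∈ step k (F v) X v, b ≤ m ∧ m < b + L') ↔
      (Dense (F v') L α β ∧ ¬ ∃ b ∈ step k (F v') X v', b ≤ m ∧ m < b + L')
    rw [h2, h1]
  · intro u
    have hFu : ∀ v : ℕ → ℕ, F (mix Y u v) = F u := fun v =>
      hF _ _ (fun y hy => by simp [mix, hy])
    by_cases hD : Dense (F u) L α β
    · have hsub : {ω | Dense (F (mix Y u (fun n => e n ω))) L α β ∧
          ¬ ∃ b ∈ step k (F (mix Y u (fun n => e n ω))) X (mix Y u (fun n => e n ω)),
            b ≤ m ∧ m < b + L'} ⊆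
          {ω | ∀ x ∈ X, e x ω ∉ (Finset.range M).filter
            (fun j => ∃ b ∈ F u, b + (x ^ k + j) ≤ m ∧ m < b + (x ^ k + j) + L')} := by
        rintro ω ⟨-, h2⟩ x hx hmem
        rw [Finset.mem_filter] at hmem
        obtain ⟨-, b, hb, hb1, hb2⟩ := hmem
        apply h2
        have hxY : x ∉ Y := fun hY => Finset.disjoint_left.1 hd hY hx
        refine ⟨b + (x ^ k + e x ω), ⟨b, ?_, x, hx, ?_⟩, hb1, hb2⟩
        · rw [hFu]; exact hb
        · simp [mix, hxY]
      refine (measureReal_mono hsub (measure_ne_top _ _)).trans ?_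
      refine prob_det P e hm hi X _ q _ hq ?_ ?_
      · intro x hx
        have := count (F u) L L' α β M m (x ^ k) hD hL' hLL hmβ (hlow x hx)
        convert this
      · intro x hx j hj
        exact hP x hx j (Finset.mem_range.1 (Finset.mem_filter.1 hj).1)
    · have hempty : {ω | Dense (F (mix Y u (fun n => e n ω))) L α β ∧
          ¬ ∃ b ∈ step k (F (mix Y u (fun n => e n ω))) X (mix Y u (fun n => e n ω)),
            b ≤ m ∧ m < b + L'} = ∅ := by
        ext ω
        simp only [Set.mem_setOf_eq, Set.mem_empty_iff_false, iff_false, not_and]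
        intro h1
        rw [hFu] at h1
        exact absurd h1 hD
      rw [hempty, measureReal_empty]
      exact (Real.exp_pos _).le

end Pool.Agent.SmW
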