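import Mathlib

/-!
# Summability

t (N+1) exp(-c' N^η) is summable over N: for N large it is at most 1/N^2 (exp(c' N^η) grows faster
than every power of N, since with y = N^η one has exp(c' y) >= y^(4/η+...)).
-/

namespace Pool.Agent.SmW

theorem summable_fail (t : ℕ) (c' η : ℝ) (hc : 0 < c') (hη : 0 < η) :
    Summable (fun N : ℕ => (t : ℝ) * (((N : ℝ) + 1) * Real.exp (-(c' * (N : ℝ) ^ η)))) := by
  refine Summable.mul_left _ ?_
  obtain ⟨k, hk⟩ := exists_nat_ge (3 / η)
  have hk3 : 3 ≤ η * k := by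
    rw [div_le_iff₀ hη] at hk
    linarith
  rw [← summable_nat_add_iff 1]
  have h0 : Summable (fun N : ℕ => 2 * (k.factorial / c' ^ k) * (1 / (((N + 1 : ℕ) : ℝ) ^ 2))) := by
    have h1 : Summable (fun N : ℕ => 1 / ((N : ℝ) ^ 2)) := Real.summable_one_div_nat_pow.2 (by norm_num)
    exact ((summable_nat_add_iff 1).2 h1).mul_left _
  refine Summable.of_nonneg_of_le (fun N => by positivity) (fun N => ?_) h0
  obtain ⟨x, hx⟩ : ∃ x : ℝ, x = ((N + 1 : ℕ) : ℝ) := ⟨_, rfl⟩
  rw [← hx]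
  have hx1 : 1 ≤ x := by
    rw [hx]
    push_cast
    have : (0 : ℝ) ≤ N := Nat.cast_nonneg N
    linarith
  have hx0 : 0 < x := by linarith
  have hc0 : 0 < c' ^ k := pow_pos hc k
  have hf : (0 : ℝ) < k.factorial := by exact_mod_cast Nat.factorial_pos k
  have h1 : x ^ 3 ≤ (x ^ η) ^ k := by
    rw [← Real.rpow_natCast (x ^ η) k, ← Real.rpow_mul hx0.le, ← Real.rpow_natCast x 3]
    refine Real.rpow_le_rpow_of_exponent_le hx1 ?_
    push_cast
    exact hk3
  have h2 : (c' * x ^ η) ^ k / k.factorial ≤ Real.exp (c' * x ^ η) :=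
    Real.pow_div_factorial_le_exp _ (by positivity) k
  have h3 : c' ^ k * x ^ 3 / k.factorial ≤ Real.exp (c' * x ^ η) := by
    refine le_trans ?_ h2
    rw [mul_pow]
    exact div_le_div_of_nonneg_right (mul_le_mul_of_nonneg_left h1 hc0.le) hf.le
  have h4 : Real.exp (-(c' * x ^ η)) ≤ k.factorial / (c' ^ k * x ^ 3) := by
    rw [Real.exp_neg, inv_le_comm₀ (Real.exp_pos _) (by positivity), inv_div]
    exact h3
  have h5 : x + 1 ≤ 2 * x := by linarith
  calc (x + 1) * Real.exp (-(c' * x ^ η)) ≤ (2 * x) * (k.factorial / (c' ^ k * x ^ 3)) :=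
        mul_le_mul h5 h4 (Real.exp_pos _).le (by linarith)
    _ = 2 * (k.factorial / c' ^ k) * (1 / x ^ 2) := by
        field_simp

end Pool.Agent.SmW
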