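import Pool.Agent.SmW.Step

/-!
# The chain of t steps

B is a fixed set, Dense with gap L 0 on [α, β].  X 0, ..., X (t-1) are pairwise disjoint finite
index sets, L 0 ≥ L 1 ≥ ... ≥ L t ≥ 1, all x in the X j satisfy x^k + M ≤ Z.  Then the probability
that iter k B X e t is NOT Dense with gap L t on [α + t Z, β] is at most
Σ_{j < t} (β + 1) exp(-(q ((M / (2 L j)) L (j+1)) |X j|)).

Proof: induction on t (statement for all j ≤ t: the probability that iter ... j is not Dense with
gap L j on [α + j Z, β] is at most the partial sum).  For the step: if iter j is Dense and iter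
(j+1) is not, there is m in [α + (j+1) Z, β] such that iter (j+1) = step (iter j) (X j) misses
(m - L (j+1), m]; union bound over the at most β + 1 values m, each by prob_step with
F v = iter k B X v j, Y = the union of X i, i < j (F v depends only on v on Y), α replaced by
α + j Z.
-/

namespace Pool.Agent.SmW

open MeasureTheory ProbabilityTheory

private theorem step_congr (k : ℕ) (B B' : Set ℕ) (X : Finset ℕ) (v v' : ℕ → ℕ) (hB : B = B')
    (hv : ∀ x ∈ X, v x = v' x) : step k B X v = step k B' X v' := by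
  subst hB
  ext b
  constructor
  · rintro ⟨a, ha, x, hx, rfl⟩
    exact ⟨a, ha, x, hx, by rw [hv x hx]⟩
  · rintro ⟨a, ha, x, hx, rfl⟩
    exact ⟨a, ha, x, hx, by rw [hv x hx]⟩

private theorem iter_congr (k : ℕ) (B : Set ℕ) (X : ℕ → Finset ℕ) (v v' : ℕ → ℕ) (j : ℕ)
    (hv : ∀ y ∈ (Finset.range j).biUnion X, v y = v' y) : iter k B X v j = iter k B X v' j := by
  induction j with
  | zero => rfl
  | succ j ih =>
    refine step_congr k _ _ (X j) v v' (ih fun y hy => hv y ?_) fun x hx => hv x ?_
    · rw [Finset.mem_biUnion] at hy ⊢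
      obtain ⟨i, hi, hy⟩ := hy
      exact ⟨i, Finset.mem_range.2 (lt_trans (Finset.mem_range.1 hi) (Nat.lt_succ_self j)), hy⟩
    · rw [Finset.mem_biUnion]
      exact ⟨j, Finset.mem_range.2 (Nat.lt_succ_self j), hx⟩

theorem chain {Ω : Type*} [MeasurableSpace Ω] (P : Measure Ω) [IsProbabilityMeasure P]
    (e : ℕ → Ω → ℕ) (hm : ∀ n, Measurable (e n)) (hi : iIndepFun e P)
    (k : ℕ) (B : Set ℕ) (X : ℕ → Finset ℕ) (L : ℕ → ℕ) (t α β M Z : ℕ) (q : ℝ) (hq : 0 ≤ q)
    (hB : Dense B (L 0) α β)
    (hdis : ∀ i < t, ∀ j < t, i ≠ j → Disjoint (X i) (X j))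
    (hL1 : ∀ j ≤ t, 1 ≤ L j) (hL : ∀ j < t, L (j + 1) ≤ L j)
    (hP : ∀ i < t, ∀ x ∈ X i, ∀ j < M, q ≤ P.real {ω | e x ω = j})
    (hZ : ∀ i < t, ∀ x ∈ X i, x ^ k + M ≤ Z) :
    P.real {ω | ¬ Dense (iter k B X (fun n => e n ω) t) (L t) (α + t * Z) β} ≤
      ∑ j ∈ Finset.range t, ((β : ℝ) + 1) *
        Real.exp (-(q * (((M / (2 * L j)) * L (j + 1) : ℕ) : ℝ) * (X j).card)) := by
  induction t with
  | zero =>
    have h0 : {ω | ¬ Dense (iter k B X (fun n => e n ω) 0) (L 0) (α + 0 * Z) β} = ∅ := by
      ext ω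
      simp only [Set.mem_setOf_eq, Set.mem_empty_iff_false, iff_false, not_not]
      rw [zero_mul, add_zero]
      exact hB
    rw [h0]
    simp
  | succ t ih =>
    have ih' := ih (fun i hi j hj => hdis i (by omega) j (by omega)) (fun j hj => hL1 j (by omega))
      (fun j hj => hL j (by omega)) (fun i hi => hP i (by omega)) (fun i hi => hZ i (by omega))
    set ms : Finset ℕ := (Finset.range (β + 1)).filter fun m => α + (t + 1) * Z ≤ m with hms
    have hsub : {ω | ¬ Dense (iter k B X (fun n => e n ω) (t + 1)) (L (t + 1))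
          (α + (t + 1) * Z) β} ⊆
        {ω | ¬ Dense (iter k B X (fun n => e n ω) t) (L t) (α + t * Z) β} ∪
          ⋃ m ∈ ms, {ω | Dense (iter k B X (fun n => e n ω) t) (L t) (α + t * Z) β ∧
            ¬ ∃ b ∈ step k (iter k B X (fun n => e n ω) t) (X t) (fun n => e n ω),
              b ≤ m ∧ m < b + L (t + 1)} := by
      intro ω hω
      rw [Set.mem_union]
      by_cases h1 : Dense (iter k B X (fun n => e n ω) t) (L t) (α + t * Z) β
      · right
        rw [Set.mem_setOf_eq] at hω
        unfold Dense at hω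
        push Not at hω
        obtain ⟨m, h2, h3, h4⟩ := hω
        rw [Set.mem_iUnion₂]
        refine ⟨m, ?_, h1, ?_⟩
        · rw [hms, Finset.mem_filter, Finset.mem_range]
          exact ⟨by omega, h2⟩
        · rintro ⟨b, hb, h5, h6⟩
          have h7 := h4 b hb h5
          omega
      · left
        exact h1
    have hm1 : ∀ m ∈ ms, P.real {ω | Dense (iter k B X (fun n => e n ω) t) (L t) (α + t * Z) β ∧
            ¬ ∃ b ∈ step k (iter k B X (fun n => e n ω) t) (X t) (fun n => e n ω),
              b ≤ m ∧ m < b + L (t + 1)} ≤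
        Real.exp (-(q * (((M / (2 * L t)) * L (t + 1) : ℕ) : ℝ) * (X t).card)) := by
      intro m hmm
      rw [hms, Finset.mem_filter, Finset.mem_range] at hmm
      have hd : Disjoint ((Finset.range t).biUnion X) (X t) := by
        rw [Finset.disjoint_biUnion_left]
        intro i hi
        have hi' := Finset.mem_range.1 hi
        exact hdis i (by omega) t (by omega) (by omega)
      have := prob_step P e hm hi ((Finset.range t).biUnion X) (X t) hd
        (fun v => iter k B X v t) (fun v v' hv => iter_congr k B X v v' t hv)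
        k (L t) (L (t + 1)) (α + t * Z) β M m q hq (fun x hx j hj => hP t (by omega) x hx j hj)
        (hL1 (t + 1) le_rfl) (hL t (by omega)) (by omega) (fun x hx => by
          have h1 := hZ t (by omega) x hx
          have h2 : α + (t + 1) * Z = α + t * Z + Z := by ring
          omega)
      exact this
    have hcard : (ms.card : ℝ) ≤ (β : ℝ) + 1 := by
      have h1 : ms.card ≤ β + 1 := by
        rw [hms]
        refine (Finset.card_filter_le _ _).trans ?_
        rw [Finset.card_range]
      exact_mod_cast h1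
    have hE : (0 : ℝ) ≤ Real.exp (-(q * (((M / (2 * L t)) * L (t + 1) : ℕ) : ℝ) * (X t).card)) :=
      (Real.exp_pos _).le
    rw [Finset.sum_range_succ]
    refine (measureReal_mono hsub (measure_ne_top _ _)).trans
      ((measureReal_union_le _ _).trans (add_le_add ih' ?_))
    refine (measureReal_biUnion_finset_le _ _).trans ?_
    refine (Finset.sum_le_sum hm1).trans ?_
    rw [Finset.sum_const, nsmul_eq_mul]
    exact mul_le_mul_of_nonneg_right hcard hE

/-- an element of iter k (PowSum k r) X v t is a sum of r positive k-th powers and of t perturbed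
ones, with indices in X 0, ..., X (t-1) -/
theorem mem_iter (k r t : ℕ) (X : ℕ → Finset ℕ) (v : ℕ → ℕ) (b : ℕ)
    (hb : b ∈ iter k (PowSum k r) X v t) :
    ∃ x : Fin r → ℕ, ∃ y : Fin t → ℕ, (∀ i, 0 < x i) ∧ (∀ i : Fin t, y i ∈ X i) ∧
      b = ∑ i, x i ^ k + ∑ i, (y i ^ k + v (y i)) := by
  induction t generalizing b with
  | zero =>
    obtain ⟨x, hx, hb⟩ := hb
    exact ⟨x, fun _ => 0, hx, fun i => i.elim0, by rw [hb]; simp⟩
  | succ t ih =>
    obtain ⟨a, ha, z, hz, hb⟩ := hb
    obtain ⟨x, y, hx, hy, hab⟩ := ih a ha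
    refine ⟨x, Fin.snoc y z, hx, ?_, ?_⟩
    · intro i
      refine Fin.lastCases ?_ (fun j => ?_) i
      · rw [Fin.snoc_last]
        exact hz
      · rw [Fin.snoc_castSucc]
        exact hy j
    · rw [Fin.sum_univ_castSucc]
      simp only [Fin.snoc_castSucc, Fin.snoc_last]
      rw [hb, hab]
      ring

end Pool.Agent.SmW
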