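import Pool.Agent.SmW.Def

/-!
# Counting the good noise values

Let i < M / (2L) (a block).  m_i = m - y - 2 L i - L lies in [α, β] because
2 L (i+1) <= M and α + y + M <= m <= β.  Choose b in B with b <= m_i < b + L and put
d = m - y - b, so 2 L i + L <= d < 2 L i + 2 L.  For l < L' (<= L) put j = d - l:
then 2 L i < j < 2 L (i+1) <= M, and b + (y + j) = m - l, so b + (y + j) <= m < b + (y + j) + L'.
The map (i, l) -> j is injective (the blocks (2Li, 2L(i+1)) are disjoint, and inside a block d is
fixed).  So there are at least (M / (2L)) * L' good values j.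
-/

namespace Pool.Agent.SmW

open Classical in
theorem count (B : Set ℕ) (L L' α β M m y : ℕ) (hB : Dense B L α β) (hL' : 1 ≤ L')
    (hLL : L' ≤ L) (hm : m ≤ β) (hlow : α + y + M ≤ m) :
    (M / (2 * L)) * L' ≤
      ((Finset.range M).filter
        (fun j => ∃ b ∈ B, b + (y + j) ≤ m ∧ m < b + (y + j) + L')).card := by
  have hblock : ∀ i, i < M / (2 * L) → 2 * (L * i) + 2 * L ≤ M := by
    intro i hi
    have h1 : (i + 1) * (2 * L) ≤ M / (2 * L) * (2 * L) := Nat.mul_le_mul_right _ hi
    have h2 : M / (2 * L) * (2 * L) ≤ M := Nat.div_mul_le_self _ _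
    have h3 : (i + 1) * (2 * L) = 2 * (L * i) + 2 * L := by ring
    omega
  have H : ∀ i, i < M / (2 * L) → ∃ b ∈ B, b ≤ m - y - 2 * (L * i) - L ∧
      m - y - 2 * (L * i) - L < b + L := by
    intro i hi
    have := hblock i hi
    exact hB _ (by omega) (by omega)
  choose! b hb1 hb2 hb3 using H
  have hcard : ((Finset.range (M / (2 * L))) ×ˢ (Finset.range L')).card = (M / (2 * L)) * L' := by
    rw [Finset.card_product, Finset.card_range, Finset.card_range]
  rw [← hcard]
  apply Finset.card_le_card_of_injOn (fun p => m - y - b p.1 - p.2)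
  · intro p hp
    simp only [Finset.coe_product, Finset.coe_range, Set.mem_prod, Set.mem_Iio] at hp
    have h1 := hblock p.1 hp.1
    have h2 := hb2 p.1 hp.1
    have h3 := hb3 p.1 hp.1
    have h4 := hp.2
    simp only [Finset.coe_filter, Finset.mem_range, Set.mem_setOf_eq]
    refine ⟨by omega, b p.1, hb1 p.1 hp.1, by omega, by omega⟩
  · intro p hp q hq hpq
    simp only [Finset.coe_product, Finset.coe_range, Set.mem_prod, Set.mem_Iio] at hp hq
    have h1 := hblock p.1 hp.1
    have h2 := hb2 p.1 hp.1
    have h3 := hb3 p.1 hp.1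
    have h4 := hp.2
    have h1' := hblock q.1 hq.1
    have h2' := hb2 q.1 hq.1
    have h3' := hb3 q.1 hq.1
    have h4' := hq.2
    simp only at hpq
    have hi : p.1 = q.1 := by
      rcases lt_trichotomy p.1 q.1 with h | h | h
      · have : L * (p.1 + 1) ≤ L * q.1 := Nat.mul_le_mul_left L h
        rw [Nat.mul_add, Nat.mul_one] at this
        omega
      · exact h
      · have : L * (q.1 + 1) ≤ L * p.1 := Nat.mul_le_mul_left L h
        rw [Nat.mul_add, Nat.mul_one] at this
        omega
    rw [hi] at hpq h2 h3 h1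
    have hl : p.2 = q.2 := by omega
    exact Prod.ext hi hl

end Pool.Agent.SmW
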