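import Mathlib

/-!
# Smoothed Waring problem: definitions (helper8, MP_ee77ae_nt)

Overview of the project (folder SmW).  Let k >= 2, r, t natural numbers, s = r + t,
gam = (1 - 1/k)^r, gam < del < 1, gam < t/k.  Let e_n be independent random natural numbers with
P(e_n = j) >= c / n^(del k) for 0 <= j <= n^(del k).  Then almost surely every large N is
x_1^k + ... + x_s^k + e_(x_1) + ... + e_(x_t) with positive integers x_i.

Proof.  (Greedy.lean) the sums of r positive k-th powers meet every interval (m - C m^gam, m].
(Count.lean, Prob.lean, Step.lean) Let B be a set meeting every interval of length L of a range,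
and X a set of indices whose noise is independent of B: then for an interval of length L' <= L the
probability that B + (x^k + e_x), x in X, misses it is at most exp(- q (M/(2L)) L' |X|), where
P(e_x = j) >= q for all j < M.
(Chain.lean) t steps, with X_1, ..., X_t disjoint blocks of about N^(1/k) indices, shrink the gap
length from N^gam to 1; (Param.lean, Asym.lean) choice of the parameters; (Main.lean)
Borel-Cantelli.
-/

namespace Pool.Agent.SmW

/-- every integer m of [α, β] has an element of B in (m - L, m] -/
def Dense (B : Set ℕ) (L α β : ℕ) : Prop :=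
  ∀ m : ℕ, α ≤ m → m ≤ β → ∃ b ∈ B, b ≤ m ∧ m < b + L

/-- the sums of r positive k-th powers -/
def PowSum (k r : ℕ) : Set ℕ :=
  {b | ∃ x : Fin r → ℕ, (∀ i, 0 < x i) ∧ b = ∑ i, x i ^ k}

/-- B + {x^k + v x : x in X} -/
def step (k : ℕ) (B : Set ℕ) (X : Finset ℕ) (v : ℕ → ℕ) : Set ℕ :=
  {b | ∃ a ∈ B, ∃ x ∈ X, b = a + (x ^ k + v x)}

/-- start with B and add one perturbed k-th power from each of the index sets X 0, ..., X (j-1) -/
def iter (k : ℕ) (B : Set ℕ) (X : ℕ → Finset ℕ) (v : ℕ → ℕ) : ℕ → Set ℕ
  | 0 => B
  | j + 1 => step k (iter k B X v j) (X j) v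

end Pool.Agent.SmW
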