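import Pool.Agent.SmW.Def

/-!
# Greedy representation by r positive k-th powers

Induction on r.  r = 0: the only element of PowSum k 0 is 0 and m - 0 = m <= C m^1 with C = 1.
Step r -> r + 1: let C0 be the constant for r (so C0 >= 1 and it also serves as the threshold).
For m >= C (C large, at least C0 + 1) let x be the largest natural number with x^k <= m - C0
(x >= 1 as m - C0 >= 1), m' = m - x^k.  Then C0 <= m', and m - C0 < (x+1)^k, so
m' < C0 + (x+1)^k - x^k <= C0 + k (x+1)^(k-1) <= C0 + k (2x)^(k-1)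
<= (C0 + k 2^(k-1)) m^(1-1/k), since x <= m^(1/k) and 1 <= m.
Apply the induction hypothesis to m': b' in PowSum k r with b' <= m' and
m' - b' <= C0 m'^g, g = (1-1/k)^r, 0 < g <= 1, so m - (b' + x^k) = m' - b' <=
C0 (C0 + k 2^(k-1))^g m^((1-1/k) g) <= C0 (C0 + k 2^(k-1)) m^((1-1/k)^(r+1)).
Take C = C0 (C0 + k 2^(k-1)) + 1.
-/

namespace Pool.Agent.SmW

theorem greedy_diff (x k : ℕ) : (x + 1) ^ k ≤ x ^ k + k * (x + 1) ^ (k - 1) := by
  induction k with
  | zero => simp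
  | succ k ih =>
    rcases Nat.eq_zero_or_pos k with h0 | h0
    · subst h0
      simp
    · have e : (x + 1) ^ (k - 1) * (x + 1) = (x + 1) ^ k := by
        rw [← pow_succ]
        congr 1
        omega
      have h1 : (x + 1) ^ (k + 1) ≤ (x ^ k + k * (x + 1) ^ (k - 1)) * (x + 1) := by
        rw [pow_succ]
        exact Nat.mul_le_mul_right _ ih
      have h2 : (x ^ k + k * (x + 1) ^ (k - 1)) * (x + 1)
          = x ^ (k + 1) + x ^ k + k * (x + 1) ^ k := by
        rw [add_mul, mul_assoc, e, pow_succ]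
        ring
      have h3 : x ^ k ≤ (x + 1) ^ k := Nat.pow_le_pow_left (Nat.le_succ x) k
      have h4 : k + 1 - 1 = k := by omega
      rw [h4]
      calc (x + 1) ^ (k + 1) ≤ x ^ (k + 1) + x ^ k + k * (x + 1) ^ k := by rw [← h2]; exact h1
        _ ≤ x ^ (k + 1) + (x + 1) ^ k + k * (x + 1) ^ k := by omega
        _ = x ^ (k + 1) + (k + 1) * (x + 1) ^ k := by ring

theorem greedy_root (k N : ℕ) (hk : 2 ≤ k) (hN : 1 ≤ N) :
    ∃ x : ℕ, 1 ≤ x ∧ x ^ k ≤ N ∧ N < (x + 1) ^ k := by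
  classical
  have h1 : (1 : ℕ) ^ k ≤ N := by simpa using hN
  refine ⟨Nat.findGreatest (fun x => x ^ k ≤ N) N, ?_, ?_, ?_⟩
  · exact Nat.le_findGreatest (P := fun x => x ^ k ≤ N) hN h1
  · exact Nat.findGreatest_spec (P := fun x => x ^ k ≤ N) hN h1
  · by_contra hc
    have hc' : (Nat.findGreatest (fun x => x ^ k ≤ N) N + 1) ^ k ≤ N := not_lt.mp hc
    have hle : Nat.findGreatest (fun x => x ^ k ≤ N) N + 1 ≤ N :=
      le_trans (Nat.le_self_pow (by omega) _) hc'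
    exact Nat.findGreatest_is_greatest (P := fun x => x ^ k ≤ N)
      (Nat.lt_succ_self _) hle hc'

theorem greedy (k r : ℕ) (hk : 2 ≤ k) :
    ∃ C : ℕ, 1 ≤ C ∧ ∀ m : ℕ, C ≤ m → ∃ b ∈ PowSum k r, b ≤ m ∧
      ((m : ℝ) - (b : ℝ)) ≤ (C : ℝ) * (m : ℝ) ^ (((1 : ℝ) - 1 / (k : ℝ)) ^ r) := by
  induction r with
  | zero =>
    refine ⟨1, le_refl _, fun m hm => ⟨0, ⟨fun i => i.elim0, fun i => i.elim0, by simp⟩,
      Nat.zero_le _, ?_⟩⟩
    simp
  | succ r ih =>
    obtain ⟨C0, hC0, H⟩ := ih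
    set K : ℕ := C0 + k * 2 ^ (k - 1) with hK
    have hkR : (2 : ℝ) ≤ (k : ℝ) := by exact_mod_cast hk
    have hk0 : (0 : ℝ) < (k : ℝ) := by linarith
    set a : ℝ := (1 : ℝ) - 1 / (k : ℝ) with ha
    have ha0 : 0 < a := by
      have : 1 / (k : ℝ) ≤ 1 / 2 := one_div_le_one_div_of_le (by norm_num) hkR
      rw [ha]
      linarith
    have ha1 : a ≤ 1 := by
      have : 0 < 1 / (k : ℝ) := by positivity
      rw [ha]
      linarith
    set g : ℝ := a ^ r with hg
    have hg0 : 0 < g := pow_pos ha0 r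
    have hg1 : g ≤ 1 := pow_le_one₀ ha0.le ha1
    have hK1 : 1 ≤ K := le_trans hC0 (Nat.le_add_right _ _)
    refine ⟨C0 * K + C0 + 1, by omega, fun m hm => ?_⟩
    have hm1 : C0 + 1 ≤ m := by
      have : C0 + 1 ≤ C0 * K + C0 + 1 := by
        have := Nat.zero_le (C0 * K)
        omega
      exact le_trans this hm
    have hmR : (1 : ℝ) ≤ (m : ℝ) := by
      have : 1 ≤ m := by omega
      exact_mod_cast this
    obtain ⟨x, hx1, hx2, hx3⟩ := greedy_root k (m - C0) hk (by omega)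
    have hx2' : x ^ k + C0 ≤ m := by omega
    have hC0m : C0 ≤ m - x ^ k := by omega
    obtain ⟨b, ⟨y, hy, hb⟩, hbm, hbd⟩ := H (m - x ^ k) hC0m
    have hmem : b + x ^ k ∈ PowSum k (r + 1) := by
      refine ⟨Fin.cons x y, ?_, ?_⟩
      · intro i
        refine Fin.cases ?_ (fun j => ?_) i
        · simpa using (show 0 < x from hx1)
        · simpa using hy j
      · rw [Fin.sum_univ_succ]
        simp only [Fin.cons_zero, Fin.cons_succ]
        rw [hb]
        ring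
    refine ⟨b + x ^ k, hmem, by omega, ?_⟩
    -- the size of m'
    have hcast : ((m - x ^ k : ℕ) : ℝ) = (m : ℝ) - (x : ℝ) ^ k := by
      rw [Nat.cast_sub (by omega)]
      push_cast
      ring
    have hxR : (1 : ℝ) ≤ (x : ℝ) := by exact_mod_cast hx1
    have hdiff : m - x ^ k ≤ C0 + k * (x + 1) ^ (k - 1) := by
      have := greedy_diff x k
      omega
    have hpow2 : (x + 1) ^ (k - 1) ≤ 2 ^ (k - 1) * x ^ (k - 1) := by
      rw [← mul_pow]
      exact Nat.pow_le_pow_left (by omega) _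
    have hdiff2 : m - x ^ k ≤ C0 + (k * 2 ^ (k - 1)) * x ^ (k - 1) := by
      calc m - x ^ k ≤ C0 + k * (x + 1) ^ (k - 1) := hdiff
        _ ≤ C0 + k * (2 ^ (k - 1) * x ^ (k - 1)) :=
          Nat.add_le_add_left (Nat.mul_le_mul_left _ hpow2) _
        _ = C0 + (k * 2 ^ (k - 1)) * x ^ (k - 1) := by ring
    have hxk : (x : ℝ) ^ (k - 1) ≤ (m : ℝ) ^ a := by
      have h1 : (x : ℝ) ^ (k - 1) = ((x : ℝ) ^ k) ^ a := by
        rw [← Real.rpow_natCast, ← Real.rpow_natCast, ← Real.rpow_mul (by linarith)]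
        congr 1
        rw [ha, Nat.cast_sub (by omega)]
        push_cast
        field_simp
      rw [h1]
      apply Real.rpow_le_rpow (by positivity) _ ha0.le
      have : x ^ k ≤ m := by omega
      exact_mod_cast this
    have hma : (1 : ℝ) ≤ (m : ℝ) ^ a := Real.one_le_rpow hmR ha0.le
    have hKm : ((m - x ^ k : ℕ) : ℝ) ≤ (K : ℝ) * (m : ℝ) ^ a := by
      have h1 : ((m - x ^ k : ℕ) : ℝ) ≤ ((C0 + (k * 2 ^ (k - 1)) * x ^ (k - 1) : ℕ) : ℝ) := by
        exact_mod_cast hdiff2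
      have h2 : ((C0 + (k * 2 ^ (k - 1)) * x ^ (k - 1) : ℕ) : ℝ)
          = (C0 : ℝ) + ((k : ℝ) * 2 ^ (k - 1)) * (x : ℝ) ^ (k - 1) := by
        push_cast
        ring
      have h3 : (K : ℝ) = (C0 : ℝ) + (k : ℝ) * 2 ^ (k - 1) := by
        rw [hK]
        push_cast
        ring
      rw [h2] at h1
      rw [h3, add_mul]
      refine le_trans h1 (add_le_add ?_ ?_)
      · have : (0 : ℝ) ≤ (C0 : ℝ) := Nat.cast_nonneg _
        nlinarith
      · exact mul_le_mul_of_nonneg_left hxk (by positivity)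
    have hK1R : (1 : ℝ) ≤ (K : ℝ) := by exact_mod_cast hK1
    have hC0R : (0 : ℝ) ≤ (C0 : ℝ) := Nat.cast_nonneg _
    have hpow : ((m - x ^ k : ℕ) : ℝ) ^ g ≤ (K : ℝ) * (m : ℝ) ^ (a * g) := by
      calc ((m - x ^ k : ℕ) : ℝ) ^ g ≤ ((K : ℝ) * (m : ℝ) ^ a) ^ g :=
            Real.rpow_le_rpow (Nat.cast_nonneg _) hKm hg0.le
        _ = (K : ℝ) ^ g * (m : ℝ) ^ (a * g) := by
            rw [Real.mul_rpow (by linarith) (by positivity), ← Real.rpow_mul (by linarith)]
        _ ≤ (K : ℝ) * (m : ℝ) ^ (a * g) := by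
            apply mul_le_mul_of_nonneg_right _ (by positivity)
            calc (K : ℝ) ^ g ≤ (K : ℝ) ^ (1 : ℝ) := Real.rpow_le_rpow_of_exponent_le hK1R hg1
              _ = (K : ℝ) := Real.rpow_one _
    have hexp : a ^ (r + 1) = a * g := by rw [pow_succ, hg]; ring
    rw [hexp]
    have hpos : (0 : ℝ) ≤ (m : ℝ) ^ (a * g) := by positivity
    have hfin : (m : ℝ) - ((b + x ^ k : ℕ) : ℝ) ≤ (C0 : ℝ) * ((K : ℝ) * (m : ℝ) ^ (a * g)) := by
      have h1 : (m : ℝ) - ((b + x ^ k : ℕ) : ℝ) = ((m - x ^ k : ℕ) : ℝ) - (b : ℝ) := by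
        rw [hcast]
        push_cast
        ring
      rw [h1]
      exact le_trans hbd (mul_le_mul_of_nonneg_left hpow hC0R)
    refine le_trans hfin ?_
    have hC : ((C0 * K + C0 + 1 : ℕ) : ℝ) = (C0 : ℝ) * (K : ℝ) + (C0 : ℝ) + 1 := by
      push_cast
      ring
    rw [hC]
    nlinarith [mul_nonneg hC0R hpos]

end Pool.Agent.SmW
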