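import Mathlib

/-!
# The case of 4k summands

With t = k/53 + 1 (natural division) and r = 4k - t: (1-1/k)^r < 1/50 and (1-1/k)^r < t/k for
every k >= 2.

k <= 119: finitely many exact checks.  E.g. (k-1)^r * 50 < k^r and (k-1)^r * k < k^r * t as natural
numbers, by decide on the finite set Icc 2 119 (kernel arithmetic on numbers with at most 1000
digits), then cast to ℝ.
k >= 120: 1 - 1/k <= exp(-1/k), so (1-1/k)^r <= exp(-r/k) = exp(-4 + t/k), and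
t/k <= 1/53 + 1/k <= 1/53 + 1/120 < 0.0273.  exp 4 = (exp 1)^4 > 54.59 (Real.exp_one_gt_d9) and
exp(-0.0273) >= 1 - 0.0273, so exp(4 - t/k) > 54.59 * 0.9727 > 53.  Hence (1-1/k)^r < 1/53 < 1/50,
and t/k > 1/53 because k < 53 (k/53 + 1).
-/

namespace Pool.Agent.SmW

private theorem small_chk : ∀ k ∈ Finset.Icc 2 119,
    (k - 1) ^ (4 * k - (k / 53 + 1)) * 50 < k ^ (4 * k - (k / 53 + 1)) ∧
      (k - 1) ^ (4 * k - (k / 53 + 1)) * k < k ^ (4 * k - (k / 53 + 1)) * (k / 53 + 1) := by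
  decide +kernel

private theorem small_case (k : ℕ) (hk : 2 ≤ k) (hk' : k ≤ 119) :
    ((1 : ℝ) - 1 / (k : ℝ)) ^ (4 * k - (k / 53 + 1)) < 1 / 50 ∧
      ((1 : ℝ) - 1 / (k : ℝ)) ^ (4 * k - (k / 53 + 1)) < ((k / 53 + 1 : ℕ) : ℝ) / (k : ℝ) := by
  obtain ⟨h1, h2⟩ := small_chk k (Finset.mem_Icc.2 ⟨hk, hk'⟩)
  generalize 4 * k - (k / 53 + 1) = r at *
  generalize k / 53 + 1 = t at *
  have hk0 : (0 : ℝ) < (k : ℝ) := by exact_mod_cast (by omega : 0 < k)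
  have e : (1 : ℝ) - 1 / (k : ℝ) = ((k - 1 : ℕ) : ℝ) / k := by
    rw [Nat.cast_sub (by omega : 1 ≤ k)]
    field_simp
    simp
  have hkr : (0 : ℝ) < (k : ℝ) ^ r := by positivity
  have h1' : ((k - 1 : ℕ) : ℝ) ^ r * 50 < (k : ℝ) ^ r := by exact_mod_cast h1
  have h2' : ((k - 1 : ℕ) : ℝ) ^ r * (k : ℝ) < (k : ℝ) ^ r * (t : ℝ) := by exact_mod_cast h2
  rw [e, div_pow]
  constructor
  · rw [div_lt_div_iff₀ hkr (by norm_num)]
    linarith
  · rw [div_lt_div_iff₀ hkr hk0]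
    linarith

theorem numeric (k : ℕ) (hk : 2 ≤ k) :
    ((1 : ℝ) - 1 / (k : ℝ)) ^ (4 * k - (k / 53 + 1)) < 1 / 50 ∧
      ((1 : ℝ) - 1 / (k : ℝ)) ^ (4 * k - (k / 53 + 1)) < ((k / 53 + 1 : ℕ) : ℝ) / (k : ℝ) := by
  by_cases hk' : k ≤ 119
  · exact small_case k hk hk'
  have hk2 : 120 ≤ k := by omega
  obtain ⟨t, ht⟩ : ∃ t, t = k / 53 + 1 := ⟨_, rfl⟩
  obtain ⟨r, hr⟩ : ∃ r, r = 4 * k - (k / 53 + 1) := ⟨_, rfl⟩
  rw [← hr, ← ht]
  have hrt : r + t = 4 * k := by omega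
  have ht1 : 53 * t ≤ k + 53 := by omega
  have ht2 : k < 53 * t := by omega
  have hkR : (120 : ℝ) ≤ (k : ℝ) := by exact_mod_cast hk2
  have hk0 : (0 : ℝ) < (k : ℝ) := by linarith
  have hrtR : (r : ℝ) + t = 4 * k := by exact_mod_cast hrt
  have ht1R : 53 * (t : ℝ) ≤ k + 53 := by exact_mod_cast ht1
  have ht2R : (k : ℝ) < 53 * t := by exact_mod_cast ht2
  have hq : (t : ℝ) / k ≤ 0.0273 := by
    rw [div_le_iff₀ hk0]
    linarith
  have hq2 : (1 : ℝ) / 53 < (t : ℝ) / k := by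
    rw [div_lt_div_iff₀ (by norm_num) hk0]
    linarith
  have h1 : (1 : ℝ) - 1 / (k : ℝ) ≤ Real.exp (-(1 / (k : ℝ))) := by
    have := Real.add_one_le_exp (-(1 / (k : ℝ)))
    linarith
  have h0 : (0 : ℝ) ≤ 1 - 1 / (k : ℝ) := by
    have : (1 : ℝ) / k ≤ 1 := by
      rw [div_le_one hk0]
      linarith
    linarith
  have h2 : ((1 : ℝ) - 1 / (k : ℝ)) ^ r ≤ Real.exp (-(1 / (k : ℝ))) ^ r :=
    pow_le_pow_left₀ h0 h1 r
  have h3 : Real.exp (-(1 / (k : ℝ))) ^ r = Real.exp (-4 + (t : ℝ) / k) := by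
    rw [← Real.exp_nat_mul]
    congr 1
    have : (r : ℝ) = 4 * k - t := by linarith
    rw [this]
    field_simp
    ring
  have h4 : Real.exp (-4 + (t : ℝ) / k) < 1 / 53 := by
    have h5 : Real.exp (-4 + (t : ℝ) / k) ≤ Real.exp (-(4 - 0.0273)) :=
      Real.exp_le_exp.2 (by linarith)
    have h6 : (53 : ℝ) < Real.exp (4 - 0.0273) := by
      have h7 : Real.exp (4 - 0.0273) = Real.exp 1 ^ 4 * Real.exp (-0.0273) := by
        rw [← Real.exp_nat_mul, ← Real.exp_add]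
        norm_num
      have h8 : (54.59 : ℝ) < Real.exp 1 ^ 4 := by
        have h9 : (2.7182818283 : ℝ) < Real.exp 1 := Real.exp_one_gt_d9
        have h10 : (2.7182818283 : ℝ) ^ 4 ≤ Real.exp 1 ^ 4 :=
          pow_le_pow_left₀ (by norm_num) h9.le 4
        have h11 : (54.59 : ℝ) < (2.7182818283 : ℝ) ^ 4 := by norm_num
        linarith
      have h12 : (0.9727 : ℝ) ≤ Real.exp (-0.0273) := by
        have := Real.add_one_le_exp (-0.0273 : ℝ)
        linarith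
      rw [h7]
      have h13 : (54.59 : ℝ) * 0.9727 ≤ Real.exp 1 ^ 4 * Real.exp (-0.0273) :=
        mul_le_mul h8.le h12 (by norm_num) (by positivity)
      have h14 : (53 : ℝ) < 54.59 * 0.9727 := by norm_num
      linarith
    rw [Real.exp_neg] at h5
    have h15 : (Real.exp (4 - 0.0273))⁻¹ < (53 : ℝ)⁻¹ :=
      inv_strictAnti₀ (by norm_num) h6
    rw [one_div]
    linarith
  constructor
  · calc ((1 : ℝ) - 1 / (k : ℝ)) ^ r ≤ Real.exp (-4 + (t : ℝ) / k) := h3 ▸ h2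
      _ < 1 / 53 := h4
      _ < 1 / 50 := by norm_num
  · calc ((1 : ℝ) - 1 / (k : ℝ)) ^ r ≤ Real.exp (-4 + (t : ℝ) / k) := h3 ▸ h2
      _ < 1 / 53 := h4
      _ < (t : ℝ) / k := hq2

end Pool.Agent.SmW
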