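import Pool.Agent.SmW.Def

/-!
# Choice of the parameters

gam := (1-1/k)^r, P := N^(1/k), u := ⌊P/(4t²)⌋₊, M := ⌊u^(δk)⌋₊, Z := N/(2t) (natural division),
η := (t/k - gam)/(2t) (so 0 < η ≤ 1/(2k)), g j := gam - j (1/k - η) (decreasing,
g t = -(t/k - gam)/2 < 0), L j := ⌈(C+1) N^(g j)⌉₊.
For N large:
* L 0 ≥ (C+1) N^gam > C N^gam; L j ≥ 1; L (j+1) ≤ L j; (C+1) N^(g t) ≤ 1, so L t = 1.
* (t+1) u ≤ 2t P/(4t²) = P/(2t), so for x ≤ (t+1)u: x^k ≤ N/(2t)^k ≤ N/(4t²) ≤ N/(4t);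
  M ≤ u^(δk) ≤ N^δ ≤ N/(8t) (δ < 1); so x^k + M ≤ Z; and C + t Z ≤ C + N/2 ≤ N.
* x ≤ P gives x^(δk) ≤ N^δ, so c N^(-δ) ≤ c / x^(δk).
* u ≥ P/(8t²) ≥ 1; M ≥ u^(δk)/2 ≥ N^δ/(2 (8t²)^k) (as δ < 1 ≤ 8t²); M ≥ 2 L 0 ≥ 2 L j because
  gam < δ; so (M/(2 L j) : ℕ) ≥ M/(4 L j) (floor y ≥ y/2 for y ≥ 1).
* L (j+1) / L j ≥ N^(-(1/k-η))/2: with a = (C+1) N^(g j), if a ≥ 1 then L j ≤ 2a and
  L (j+1) ≥ a N^(-(1/k-η)); if a < 1 then L j = 1 ≤ L (j+1).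
* Hence c N^(-δ) (M/(2 L j)) L (j+1) u ≥ c' N^η with c' = c/(128 t² (8t²)^k) (or any smaller
  positive constant).
-/

namespace Pool.Agent.SmW

private theorem par_ev (y K : ℝ) (hy : 0 < y) :
    ∃ N0 : ℕ, ∀ N : ℕ, N0 ≤ N → K ≤ (N : ℝ) ^ y := by
  have h := (tendsto_rpow_atTop hy).comp (tendsto_natCast_atTop_atTop (R := ℝ))
  exact Filter.eventually_atTop.1 (h.eventually_ge_atTop K)

private theorem par_floor {y : ℝ} (hy : 1 ≤ y) : y / 2 ≤ (⌊y⌋₊ : ℝ) := by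
  have h1 := Nat.lt_floor_add_one y
  have h2 : (1 : ℝ) ≤ (⌊y⌋₊ : ℝ) := by
    exact_mod_cast (Nat.one_le_floor_iff y).2 hy
  linarith

private theorem par_div {M L : ℕ} (hL : 1 ≤ L) (h : 2 * L ≤ M) :
    (M : ℝ) / (4 * L) ≤ ((M / (2 * L) : ℕ) : ℝ) := by
  have hLr : (1 : ℝ) ≤ L := by exact_mod_cast hL
  have hMr : (2 : ℝ) * L ≤ M := by exact_mod_cast h
  have h1 : 1 ≤ (M : ℝ) / ((2 * L : ℕ) : ℝ) := by
    rw [le_div_iff₀ (by positivity)]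
    push_cast
    linarith
  have h2 := par_floor h1
  rw [Nat.floor_div_eq_div] at h2
  refine le_trans (le_of_eq ?_) h2
  push_cast
  field_simp
  ring

private theorem par_ratio {A w : ℝ} (hA : 0 < A) (hw : 0 < w) (hw1 : w ≤ 1) :
    (⌈A⌉₊ : ℝ) * (w / 2) ≤ (⌈A * w⌉₊ : ℝ) := by
  rcases le_or_gt 1 A with h | h
  · have h1 : (⌈A⌉₊ : ℝ) ≤ 2 * A := by
      have := Nat.ceil_lt_add_one hA.le
      linarith
    calc (⌈A⌉₊ : ℝ) * (w / 2) ≤ 2 * A * (w / 2) := mul_le_mul_of_nonneg_right h1 (by linarith)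
      _ = A * w := by ring
      _ ≤ (⌈A * w⌉₊ : ℝ) := Nat.le_ceil _
  · have h1 : ⌈A⌉₊ ≤ 1 := Nat.ceil_le.2 (by push_cast; linarith)
    have h2 : (⌈A⌉₊ : ℝ) ≤ 1 := by exact_mod_cast h1
    have h3 : 1 ≤ ⌈A * w⌉₊ := Nat.one_le_ceil_iff.2 (mul_pos hA hw)
    have h4 : (1 : ℝ) ≤ (⌈A * w⌉₊ : ℝ) := by exact_mod_cast h3
    have h5 : (⌈A⌉₊ : ℝ) * (w / 2) ≤ 1 * (1 / 2) :=
      mul_le_mul h2 (by linarith) (by linarith) (by norm_num)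
    linarith

theorem params (k r t C : ℕ) (δ c : ℝ) (hk : 2 ≤ k) (ht : 1 ≤ t) (hC : 1 ≤ C) (hc : 0 < c)
    (h1 : ((1 : ℝ) - 1 / (k : ℝ)) ^ r < δ) (h2 : δ < 1)
    (h3 : ((1 : ℝ) - 1 / (k : ℝ)) ^ r < (t : ℝ) / (k : ℝ)) :
    ∃ c' η : ℝ, 0 < c' ∧ 0 < η ∧ ∃ N0 : ℕ, ∀ N : ℕ, N0 ≤ N →
      ∃ (u M Z : ℕ) (L : ℕ → ℕ), 1 ≤ u ∧
        (C : ℝ) * (N : ℝ) ^ (((1 : ℝ) - 1 / (k : ℝ)) ^ r) < (L 0 : ℝ) ∧
        (∀ j ≤ t, 1 ≤ L j) ∧ (∀ j < t, L (j + 1) ≤ L j) ∧ L t = 1 ∧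
        ((M : ℝ) ≤ (u : ℝ) ^ (δ * (k : ℝ))) ∧
        (∀ x : ℕ, x ≤ (t + 1) * u → x ^ k + M ≤ Z) ∧
        C + t * Z ≤ N ∧
        (∀ x : ℕ, 1 ≤ x → x ≤ (t + 1) * u →
          c * (N : ℝ) ^ (-δ) ≤ c / (x : ℝ) ^ (δ * (k : ℝ))) ∧
        (∀ j < t, c' * (N : ℝ) ^ η ≤
          c * (N : ℝ) ^ (-δ) * (((M / (2 * L j)) * L (j + 1) : ℕ) : ℝ) * (u : ℝ)) := by
  have hkr : (2 : ℝ) ≤ k := by exact_mod_cast hk
  have hk0 : (0 : ℝ) < k := by linarith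
  have htr : (1 : ℝ) ≤ t := by exact_mod_cast ht
  have ht0 : (0 : ℝ) < t := by linarith
  have hCr : (1 : ℝ) ≤ C := by exact_mod_cast hC
  have hgp : 0 < ((1 : ℝ) - 1 / (k : ℝ)) ^ r := by
    apply pow_pos
    have h4 : 1 / (k : ℝ) ≤ 1 / 2 := one_div_le_one_div_of_le (by norm_num) hkr
    linarith
  generalize ((1 : ℝ) - 1 / (k : ℝ)) ^ r = g at *
  have hδ0 : 0 < δ := hgp.trans h1
  obtain ⟨η, hη⟩ : ∃ η : ℝ, η = ((t : ℝ) / k - g) / (2 * t) := ⟨_, rfl⟩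
  obtain ⟨ω, hω⟩ : ∃ ω : ℝ, ω = ((t : ℝ) / k + g) / (2 * t) := ⟨_, rfl⟩
  obtain ⟨θ, hθ⟩ : ∃ θ : ℝ, θ = ((t : ℝ) / k - g) / 2 := ⟨_, rfl⟩
  have hη0 : 0 < η := by
    rw [hη]
    exact div_pos (by linarith) (by linarith)
  have hω0 : 0 < ω := by
    rw [hω]
    exact div_pos (by positivity) (by linarith)
  have hθ0 : 0 < θ := by
    rw [hθ]
    linarith
  have hωη : ω = 1 / (k : ℝ) - η := by
    rw [hω, hη]
    field_simp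
    ring
  have htω : g - t * ω = -θ := by
    rw [hω, hθ]
    field_simp
    ring
  obtain ⟨a, ha⟩ : ∃ a : ℝ, a = 1 / (2 * (8 * (t : ℝ) ^ 2) ^ k) := ⟨_, rfl⟩
  have ha0 : 0 < a := by
    rw [ha]
    positivity
  obtain ⟨N2, hN2⟩ := par_ev θ (C + 1) hθ0
  obtain ⟨N3, hN3⟩ := par_ev (1 - δ) (8 * t) (by linarith)
  obtain ⟨N5, hN5⟩ := par_ev (1 / (k : ℝ)) (4 * (t : ℝ) ^ 2) (by positivity)
  obtain ⟨N6, hN6⟩ := par_ev (δ - g) (2 * (C + 2) / a) (by linarith)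
  refine ⟨c * a / (64 * (t : ℝ) ^ 2), η, by positivity, hη0,
    max (max N2 N3) (max (max N5 N6) (2 * C)), fun N hN => ?_⟩
  have f2 := hN2 N (le_trans (by simp) hN)
  have f3 := hN3 N (le_trans (by simp) hN)
  have f5 := hN5 N (le_trans (by simp) hN)
  have f6 := hN6 N (le_trans (by simp) hN)
  have f4 : 2 * C ≤ N := le_trans (by simp) hN
  have hNr : (1 : ℝ) ≤ (N : ℝ) := by
    have : 1 ≤ N := by omega
    exact_mod_cast this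
  have hN0 : (0 : ℝ) < (N : ℝ) := by linarith
  obtain ⟨P, hP⟩ : ∃ P : ℝ, P = (N : ℝ) ^ (1 / (k : ℝ)) := ⟨_, rfl⟩
  rw [← hP] at f5
  have hP0 : 0 < P := by
    rw [hP]
    exact Real.rpow_pos_of_pos hN0 _
  have hPk : P ^ k = (N : ℝ) := by
    rw [hP, ← Real.rpow_natCast, ← Real.rpow_mul hN0.le, one_div_mul_cancel hk0.ne',
      Real.rpow_one]
  have hPδ : P ^ (δ * (k : ℝ)) = (N : ℝ) ^ δ := by
    rw [hP, ← Real.rpow_mul hN0.le]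
    congr 1
    field_simp
  have hδk : 0 < δ * (k : ℝ) := by positivity
  obtain ⟨u, hu⟩ : ∃ u : ℕ, u = ⌊P / (4 * (t : ℝ) ^ 2)⌋₊ := ⟨_, rfl⟩
  have hy1 : 1 ≤ P / (4 * (t : ℝ) ^ 2) := by
    rw [le_div_iff₀ (by positivity)]
    linarith
  have hu1 : 1 ≤ u := by
    rw [hu]
    exact (Nat.one_le_floor_iff _).2 hy1
  have hur : (1 : ℝ) ≤ u := by exact_mod_cast hu1
  have huP : (u : ℝ) * (4 * (t : ℝ) ^ 2) ≤ P := by
    have h5 : (u : ℝ) ≤ P / (4 * (t : ℝ) ^ 2) := by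
      rw [hu]
      exact Nat.floor_le (by positivity)
    rwa [le_div_iff₀ (by positivity)] at h5
  have huL : P / (8 * (t : ℝ) ^ 2) ≤ (u : ℝ) := by
    have h5 := par_floor hy1
    rw [← hu] at h5
    refine le_trans (le_of_eq ?_) h5
    field_simp
    ring
  -- indices
  have hx2 : ∀ x : ℕ, x ≤ (t + 1) * u → (x : ℝ) * (2 * t) ≤ P := by
    intro x hx
    have h5 : (x : ℝ) ≤ ((t : ℝ) + 1) * u := by exact_mod_cast hx
    have h6 : ((t : ℝ) + 1) * u ≤ (2 * t) * u :=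
      mul_le_mul_of_nonneg_right (by linarith) (by linarith)
    have h7 : (x : ℝ) * (2 * t) ≤ ((2 * t) * u) * (2 * t) :=
      mul_le_mul_of_nonneg_right (h5.trans h6) (by linarith)
    calc (x : ℝ) * (2 * t) ≤ ((2 * t) * u) * (2 * t) := h7
      _ = (u : ℝ) * (4 * (t : ℝ) ^ 2) := by ring
      _ ≤ P := huP
  have hxP : ∀ x : ℕ, x ≤ (t + 1) * u → (x : ℝ) ≤ P := by
    intro x hx
    have h5 := hx2 x hx
    have h6 : (x : ℝ) * 1 ≤ (x : ℝ) * (2 * t) :=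
      mul_le_mul_of_nonneg_left (by linarith) (Nat.cast_nonneg x)
    linarith
  have huPP : (u : ℝ) ≤ P := hxP u (by
    calc u = 1 * u := (one_mul u).symm
      _ ≤ (t + 1) * u := Nat.mul_le_mul_right u (by omega))
  obtain ⟨M, hM⟩ : ∃ M : ℕ, M = ⌊(u : ℝ) ^ (δ * (k : ℝ))⌋₊ := ⟨_, rfl⟩
  have hMu : (M : ℝ) ≤ (u : ℝ) ^ (δ * (k : ℝ)) := by
    rw [hM]
    exact Nat.floor_le (by positivity)
  have hMN : (M : ℝ) ≤ (N : ℝ) ^ δ := by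
    refine hMu.trans ?_
    rw [← hPδ]
    exact Real.rpow_le_rpow (by linarith) huPP hδk.le
  have hNδ : (N : ℝ) ^ δ * (8 * t) ≤ N := by
    calc (N : ℝ) ^ δ * (8 * t) ≤ (N : ℝ) ^ δ * (N : ℝ) ^ (1 - δ) :=
          mul_le_mul_of_nonneg_left f3 (by positivity)
      _ = N := by
          rw [← Real.rpow_add hN0]
          simp
  have hML : a * (N : ℝ) ^ δ ≤ (M : ℝ) := by
    have h5 : 1 ≤ (u : ℝ) ^ (δ * (k : ℝ)) := Real.one_le_rpow hur hδk.le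
    have h6 := par_floor h5
    rw [← hM] at h6
    have h7 : (P / (8 * (t : ℝ) ^ 2)) ^ (δ * (k : ℝ)) ≤ (u : ℝ) ^ (δ * (k : ℝ)) :=
      Real.rpow_le_rpow (by positivity) huL hδk.le
    have h8 : (P / (8 * (t : ℝ) ^ 2)) ^ (δ * (k : ℝ)) =
        (N : ℝ) ^ δ / (8 * (t : ℝ) ^ 2) ^ (δ * (k : ℝ)) := by
      rw [Real.div_rpow hP0.le (by positivity), hPδ]
    have h9 : (8 * (t : ℝ) ^ 2) ^ (δ * (k : ℝ)) ≤ (8 * (t : ℝ) ^ 2) ^ k := by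
      rw [← Real.rpow_natCast (8 * (t : ℝ) ^ 2) k]
      refine Real.rpow_le_rpow_of_exponent_le ?_ ?_
      · have : (1 : ℝ) ≤ (t : ℝ) ^ 2 := one_le_pow₀ htr
        linarith
      · have : δ * (k : ℝ) ≤ 1 * k := mul_le_mul_of_nonneg_right h2.le hk0.le
        linarith
    have h10 : (N : ℝ) ^ δ / (8 * (t : ℝ) ^ 2) ^ k ≤
        (N : ℝ) ^ δ / (8 * (t : ℝ) ^ 2) ^ (δ * (k : ℝ)) :=
      div_le_div_of_nonneg_left (by positivity) (by positivity) h9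
    calc a * (N : ℝ) ^ δ = (N : ℝ) ^ δ / (8 * (t : ℝ) ^ 2) ^ k / 2 := by
          rw [ha]
          field_simp
      _ ≤ (u : ℝ) ^ (δ * (k : ℝ)) / 2 := by linarith
      _ ≤ (M : ℝ) := h6
  -- the gaps
  obtain ⟨w, hw⟩ : ∃ w : ℝ, w = (N : ℝ) ^ (-ω) := ⟨_, rfl⟩
  have hw0 : 0 < w := by
    rw [hw]
    positivity
  have hw1 : w ≤ 1 := by
    rw [hw]
    exact Real.rpow_le_one_of_one_le_of_nonpos hNr (by linarith)
  obtain ⟨A, hA⟩ : ∃ A : ℕ → ℝ, ∀ j, A j = ((C : ℝ) + 1) * (N : ℝ) ^ (g - j * ω) :=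
    ⟨_, fun j => rfl⟩
  have hA0 : ∀ j, 0 < A j := by
    intro j
    rw [hA]
    positivity
  have hAs : ∀ j, A (j + 1) = A j * w := by
    intro j
    rw [hA, hA, hw, mul_assoc, ← Real.rpow_add hN0]
    congr 2
    push_cast
    ring
  have hAle : ∀ j, A j ≤ A 0 := by
    intro j
    induction j with
    | zero => exact le_rfl
    | succ j ih =>
      rw [hAs]
      have : A j * w ≤ A j * 1 := mul_le_mul_of_nonneg_left hw1 (hA0 j).le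
      linarith
  have hA00 : A 0 = ((C : ℝ) + 1) * (N : ℝ) ^ g := by
    rw [hA]
    simp
  have hNg : (1 : ℝ) ≤ (N : ℝ) ^ g := Real.one_le_rpow hNr hgp.le
  have hL2 : ∀ j, 2 * ⌈A j⌉₊ ≤ M := by
    intro j
    have h5 : (⌈A j⌉₊ : ℝ) < A j + 1 := Nat.ceil_lt_add_one (hA0 j).le
    have h6 : A j + 1 ≤ ((C : ℝ) + 2) * (N : ℝ) ^ g := by
      have h7 := hAle j
      rw [hA00] at h7
      have h8 : ((C : ℝ) + 2) * (N : ℝ) ^ g = ((C : ℝ) + 1) * (N : ℝ) ^ g + (N : ℝ) ^ g := by ring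
      linarith
    have h7 : 2 * ((C : ℝ) + 2) * (N : ℝ) ^ g ≤ a * (N : ℝ) ^ δ := by
      have h8 : 2 * ((C : ℝ) + 2) ≤ a * (N : ℝ) ^ (δ - g) := by
        rw [div_le_iff₀ ha0] at f6
        linarith
      calc 2 * ((C : ℝ) + 2) * (N : ℝ) ^ g ≤ a * (N : ℝ) ^ (δ - g) * (N : ℝ) ^ g :=
            mul_le_mul_of_nonneg_right h8 (by positivity)
        _ = a * (N : ℝ) ^ δ := by
            rw [mul_assoc, ← Real.rpow_add hN0]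
            simp
    have h9 : (2 : ℝ) * (⌈A j⌉₊ : ℝ) ≤ (M : ℝ) := by linarith
    exact_mod_cast h9
  refine ⟨u, M, N / (2 * t), fun j => ⌈A j⌉₊, hu1, ?_, ?_, ?_, ?_, hMu, ?_, ?_, ?_, ?_⟩
  · have h5 : A 0 ≤ (⌈A 0⌉₊ : ℝ) := Nat.le_ceil _
    rw [hA00] at h5
    have h6 : ((C : ℝ) + 1) * (N : ℝ) ^ g = (C : ℝ) * (N : ℝ) ^ g + (N : ℝ) ^ g := by ring
    show (C : ℝ) * (N : ℝ) ^ g < (⌈A 0⌉₊ : ℝ)
    rw [hA00]
    linarith
  · intro j _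
    exact Nat.one_le_ceil_iff.2 (hA0 j)
  · intro j _
    refine Nat.ceil_mono ?_
    rw [hAs]
    have : A j * w ≤ A j * 1 := mul_le_mul_of_nonneg_left hw1 (hA0 j).le
    linarith
  · have h5 : A t ≤ 1 := by
      rw [hA, htω, Real.rpow_neg hN0.le, ← div_eq_mul_inv, div_le_one (by positivity)]
      exact f2
    have h6 : ⌈A t⌉₊ ≤ 1 := Nat.ceil_le.2 (by push_cast; exact h5)
    have h7 : 1 ≤ ⌈A t⌉₊ := Nat.one_le_ceil_iff.2 (hA0 t)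
    exact le_antisymm h6 h7
  · intro x hx
    rw [Nat.le_div_iff_mul_le (by omega)]
    have h5 : (x : ℝ) ^ k * (4 * t) ≤ N := by
      have h6 : ((x : ℝ) * (2 * t)) ^ k ≤ P ^ k := pow_le_pow_left₀ (by positivity) (hx2 x hx) k
      have h7 : (4 : ℝ) * t ≤ (2 * (t : ℝ)) ^ k := by
        calc (4 : ℝ) * t = 4 * (t * 1) := by ring
          _ ≤ 4 * (t * t) :=
              mul_le_mul_of_nonneg_left (mul_le_mul_of_nonneg_left htr ht0.le) (by norm_num)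
          _ = (2 * (t : ℝ)) ^ 2 := by ring
          _ ≤ (2 * (t : ℝ)) ^ k := pow_le_pow_right₀ (by linarith) hk
      calc (x : ℝ) ^ k * (4 * t) ≤ (x : ℝ) ^ k * (2 * (t : ℝ)) ^ k :=
            mul_le_mul_of_nonneg_left h7 (by positivity)
        _ = ((x : ℝ) * (2 * t)) ^ k := (mul_pow _ _ _).symm
        _ ≤ P ^ k := h6
        _ = N := hPk
    have h6 : (M : ℝ) * (8 * t) ≤ N :=
      (mul_le_mul_of_nonneg_right hMN (by positivity)).trans hNδ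
    have h7 : (((x : ℝ) ^ k + M) * (2 * t)) ≤ N := by
      have e1 : (x : ℝ) ^ k * (4 * t) = 2 * ((x : ℝ) ^ k * (2 * t)) := by ring
      have e2 : (M : ℝ) * (8 * t) = 4 * ((M : ℝ) * (2 * t)) := by ring
      have e3 : (((x : ℝ) ^ k + M) * (2 * t)) = (x : ℝ) ^ k * (2 * t) + (M : ℝ) * (2 * t) := by ring
      rw [e1] at h5
      rw [e2] at h6
      rw [e3]
      linarith
    exact_mod_cast h7
  · have h5 : N / (2 * t) * (2 * t) ≤ N := Nat.div_mul_le_self N (2 * t)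
    have h6 : N / (2 * t) * (2 * t) = 2 * (t * (N / (2 * t))) := by ring
    omega
  · intro x hx1 hx
    have hx0 : (0 : ℝ) < (x : ℝ) := by exact_mod_cast hx1
    have h5 : (x : ℝ) ^ (δ * (k : ℝ)) ≤ (N : ℝ) ^ δ := by
      rw [← hPδ]
      exact Real.rpow_le_rpow hx0.le (hxP x hx) hδk.le
    rw [Real.rpow_neg hN0.le, ← div_eq_mul_inv]
    exact div_le_div_of_nonneg_left hc.le (by positivity) h5
  · intro j _
    have hLj : 1 ≤ ⌈A j⌉₊ := Nat.one_le_ceil_iff.2 (hA0 j)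
    have hLr : (0 : ℝ) < (⌈A j⌉₊ : ℝ) := by exact_mod_cast hLj
    have h5 := par_div hLj (hL2 j)
    have h6 := par_ratio (hA0 j) hw0 hw1
    rw [← hAs] at h6
    have h7 : (M : ℝ) / (4 * ⌈A j⌉₊) * ((⌈A j⌉₊ : ℝ) * (w / 2)) ≤
        ((M / (2 * ⌈A j⌉₊) : ℕ) : ℝ) * (⌈A (j + 1)⌉₊ : ℝ) :=
      mul_le_mul h5 h6 (by positivity) (Nat.cast_nonneg _)
    have h8 : (M : ℝ) / (4 * ⌈A j⌉₊) * ((⌈A j⌉₊ : ℝ) * (w / 2)) = (M : ℝ) * (w / 8) := by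
      field_simp
      ring
    have h9 : a * (N : ℝ) ^ δ * (w / 8) ≤
        (((M / (2 * ⌈A j⌉₊)) * ⌈A (j + 1)⌉₊ : ℕ) : ℝ) := by
      push_cast
      rw [h8] at h7
      exact (mul_le_mul_of_nonneg_right hML (by positivity)).trans h7
    have h10 : w * P = (N : ℝ) ^ η := by
      rw [hw, hP, ← Real.rpow_add hN0]
      congr 1
      rw [hωη]
      ring
    have hcN : 0 < c * (N : ℝ) ^ (-δ) := by positivity
    have h11 : c * (N : ℝ) ^ (-δ) * (a * (N : ℝ) ^ δ * (w / 8)) * (P / (8 * (t : ℝ) ^ 2)) ≤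
        c * (N : ℝ) ^ (-δ) * (((M / (2 * ⌈A j⌉₊)) * ⌈A (j + 1)⌉₊ : ℕ) : ℝ) * (u : ℝ) :=
      mul_le_mul (mul_le_mul_of_nonneg_left h9 hcN.le) huL (by positivity)
        (mul_nonneg hcN.le (Nat.cast_nonneg _))
    refine le_trans (le_of_eq ?_) h11
    have h12 : (N : ℝ) ^ (-δ) * (N : ℝ) ^ δ = 1 := by
      rw [← Real.rpow_add hN0]
      simp
    rw [← h10]
    have e1 : c * (N : ℝ) ^ (-δ) * (a * (N : ℝ) ^ δ * (w / 8)) * (P / (8 * (t : ℝ) ^ 2)) =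
        ((N : ℝ) ^ (-δ) * (N : ℝ) ^ δ) * (c * a * (w * P) / (64 * (t : ℝ) ^ 2)) := by
      field_simp
      ring
    rw [e1, h12]
    ring

end Pool.Agent.SmW
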