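import Pool.Agent.SmW.Greedy
import Pool.Agent.SmW.Chain
import Pool.Agent.SmW.Param
import Pool.Agent.SmW.Asym
import Pool.Agent.SmW.Numeric

/-!
# Assembly: Borel-Cantelli
-/

namespace Pool.Agent.SmW

open MeasureTheory ProbabilityTheory Filter

/-- Almost surely, for independent noises e_n with P(e_n = j) >= c / n^(δ k) for 0 <= j <= n^(δ k),
every large N is a sum of r positive k-th powers and of t perturbed ones y^k + e_y with distinct
positive y. -/
def NoisyWaring (k r t : ℕ) (δ : ℝ) : Prop :=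
  ∀ (c : ℝ), 0 < c → ∀ (Ω : Type) [MeasurableSpace Ω] (P : Measure Ω) [IsProbabilityMeasure P]
    (e : ℕ → Ω → ℕ), (∀ n, Measurable (e n)) → iIndepFun e P →
    (∀ n j : ℕ, 1 ≤ n → (j : ℝ) ≤ (n : ℝ) ^ (δ * (k : ℝ)) →
      c / (n : ℝ) ^ (δ * (k : ℝ)) ≤ P.real {ω | e n ω = j}) →
    ∀ᵐ ω ∂P, ∀ᶠ N : ℕ in atTop, ∃ (x : Fin r → ℕ) (y : Fin t → ℕ), (∀ i, 0 < x i) ∧
      (∀ i, 0 < y i) ∧ Function.Injective y ∧
      N = ∑ i, x i ^ k + ∑ i, (y i ^ k + e (y i) ω)

theorem noisyWaring (k r t : ℕ) (δ : ℝ) (hk : 2 ≤ k) (ht : 1 ≤ t)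
    (h1 : ((1 : ℝ) - 1 / (k : ℝ)) ^ r < δ) (h2 : δ < 1)
    (h3 : ((1 : ℝ) - 1 / (k : ℝ)) ^ r < (t : ℝ) / (k : ℝ)) : NoisyWaring k r t δ := by
  intro c hc Ω _ P _ e hm hi hlaw
  obtain ⟨C, hC, hG⟩ := greedy k r hk
  obtain ⟨c', η, hc', hη, N0, hN0⟩ := params k r t C δ c hk ht hC hc h1 h2 h3
  -- the bad events
  let X : ℕ → ℕ → Finset ℕ := fun u j => Finset.Ioc ((j + 1) * u) ((j + 2) * u)
  have key : ∀ N : ℕ, N0 ≤ N → P.real {ω | ¬ ∃ (x : Fin r → ℕ) (y : Fin t → ℕ), (∀ i, 0 < x i) ∧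
      (∀ i, 0 < y i) ∧ Function.Injective y ∧
      N = ∑ i, x i ^ k + ∑ i, (y i ^ k + e (y i) ω)} ≤
      (t : ℝ) * (((N : ℝ) + 1) * Real.exp (-(c' * (N : ℝ) ^ η))) := by
    intro N hN
    obtain ⟨u, M, Z, L, hu, hL0, hL1, hLdec, hLt, hM, hZ, hCZ, hq, hexp⟩ := hN0 N hN
    have hdis : ∀ i < t, ∀ j < t, i ≠ j → Disjoint (X u i) (X u j) := by
      intro i _ j _ hij
      rw [Finset.disjoint_left]
      intro a ha hb
      simp only [X, Finset.mem_Ioc] at ha hb
      rcases lt_or_gt_of_ne hij with h | h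
      · have : (i + 2) * u ≤ (j + 1) * u := Nat.mul_le_mul_right u (by omega)
        omega
      · have : (j + 2) * u ≤ (i + 1) * u := Nat.mul_le_mul_right u (by omega)
        omega
    have hXle : ∀ i < t, ∀ x ∈ X u i, u < x ∧ x ≤ (t + 1) * u := by
      intro i hi x hx
      simp only [X, Finset.mem_Ioc] at hx
      have h1 : (i + 2) * u ≤ (t + 1) * u := Nat.mul_le_mul_right u (by omega)
      have h2 : 1 * u ≤ (i + 1) * u := Nat.mul_le_mul_right u (by omega)
      omega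
    have hB : Dense (PowSum k r) (L 0) C N := by
      intro m hm1 hm2
      obtain ⟨b, hb, hbm, hlt⟩ := hG m hm1
      refine ⟨b, hb, hbm, ?_⟩
      have h5 : (m : ℝ) ^ (((1 : ℝ) - 1 / (k : ℝ)) ^ r) ≤ (N : ℝ) ^ (((1 : ℝ) - 1 / (k : ℝ)) ^ r) := by
        apply Real.rpow_le_rpow (by positivity) (by exact_mod_cast hm2)
        apply pow_nonneg
        have : (1 : ℝ) / (k : ℝ) ≤ 1 := by
          rw [div_le_one (by positivity)]
          exact_mod_cast (by omega : 1 ≤ k)
        linarith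
      have h6 : (m : ℝ) - (b : ℝ) < (L 0 : ℝ) := by
        have : (C : ℝ) * (m : ℝ) ^ (((1 : ℝ) - 1 / (k : ℝ)) ^ r) ≤
            (C : ℝ) * (N : ℝ) ^ (((1 : ℝ) - 1 / (k : ℝ)) ^ r) :=
          mul_le_mul_of_nonneg_left h5 (by positivity)
        linarith
      have h7 : (m : ℝ) < ((b + L 0 : ℕ) : ℝ) := by
        push_cast
        linarith
      exact_mod_cast h7
    have hqnn : 0 ≤ c * (N : ℝ) ^ (-δ) := by positivity
    have hP : ∀ i < t, ∀ x ∈ X u i, ∀ j < M, c * (N : ℝ) ^ (-δ) ≤ P.real {ω | e x ω = j} := by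
      intro i hi x hx j hj
      obtain ⟨hx1, hx2⟩ := hXle i hi x hx
      refine le_trans (hq x (by omega) hx2) (hlaw x j (by omega) ?_)
      have : (u : ℝ) ^ (δ * (k : ℝ)) ≤ (x : ℝ) ^ (δ * (k : ℝ)) := by
        apply Real.rpow_le_rpow (by positivity) (by exact_mod_cast hx1.le)
        have : 0 ≤ δ := le_trans (pow_nonneg (by
          have : (1 : ℝ) / (k : ℝ) ≤ 1 := by
            rw [div_le_one (by positivity)]
            exact_mod_cast (by omega : 1 ≤ k)
          linarith) r) h1.le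
        positivity
      have h8 : (j : ℝ) ≤ (M : ℝ) := by exact_mod_cast hj.le
      linarith
    have hchain := chain P e hm hi k (PowSum k r) (X u) L t C N M Z (c * (N : ℝ) ^ (-δ)) hqnn hB
      hdis hL1 hLdec hP (fun i hi x hx => hZ x (hXle i hi x hx).2)
    have hsub : {ω | ¬ ∃ (x : Fin r → ℕ) (y : Fin t → ℕ), (∀ i, 0 < x i) ∧
        (∀ i, 0 < y i) ∧ Function.Injective y ∧
        N = ∑ i, x i ^ k + ∑ i, (y i ^ k + e (y i) ω)} ⊆
        {ω | ¬ Dense (iter k (PowSum k r) (X u) (fun n => e n ω) t) (L t) (C + t * Z) N} := by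
      intro ω hω hD
      apply hω
      obtain ⟨b, hb, hb1, hb2⟩ := hD N hCZ le_rfl
      rw [hLt] at hb2
      have hbN : N = b := by omega
      obtain ⟨x, y, hx, hy, hsum⟩ := mem_iter k r t (X u) (fun n => e n ω) b hb
      refine ⟨x, y, hx, fun i => ?_, ?_, ?_⟩
      · have := (hXle i i.2 (y i) (hy i)).1
        omega
      · intro i j hij
        by_contra hne
        have h9 := hdis i i.2 j j.2 (fun h => hne (Fin.ext h))
        rw [Finset.disjoint_left] at h9
        exact h9 (hy i) (hij ▸ hy j)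
      · rw [hbN, hsum]
    refine le_trans (measureReal_mono hsub) (le_trans hchain ?_)
    calc ∑ j ∈ Finset.range t, ((N : ℝ) + 1) *
        Real.exp (-(c * (N : ℝ) ^ (-δ) * (((M / (2 * L j)) * L (j + 1) : ℕ) : ℝ) * (X u j).card))
        ≤ ∑ _j ∈ Finset.range t, ((N : ℝ) + 1) * Real.exp (-(c' * (N : ℝ) ^ η)) := by
          apply Finset.sum_le_sum
          intro j hj
          apply mul_le_mul_of_nonneg_left _ (by positivity)
          apply Real.exp_le_exp.mpr
          have hcard : ((X u j).card : ℝ) = (u : ℝ) := by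
            have : (X u j).card = u := by
              simp only [X, Nat.card_Ioc]
              have : (j + 2) * u = (j + 1) * u + u := by ring
              omega
            rw [this]
          rw [hcard]
          have := hexp j (Finset.mem_range.mp hj)
          linarith
      _ = (t : ℝ) * (((N : ℝ) + 1) * Real.exp (-(c' * (N : ℝ) ^ η))) := by
          rw [Finset.sum_const, Finset.card_range, nsmul_eq_mul]
  -- Borel-Cantelli
  have hsumm := summable_fail t c' η hc' hη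
  set bad : ℕ → Set Ω := fun N => {ω | ¬ ∃ (x : Fin r → ℕ) (y : Fin t → ℕ), (∀ i, 0 < x i) ∧
      (∀ i, 0 < y i) ∧ Function.Injective y ∧
      N = ∑ i, x i ^ k + ∑ i, (y i ^ k + e (y i) ω)} with hbad
  have hfin : ∑' N : ℕ, P (bad (N + N0)) ≠ ⊤ := by
    have hle : ∀ N : ℕ, P (bad (N + N0)) ≤
        ENNReal.ofReal ((t : ℝ) * ((((N + N0 : ℕ) : ℝ) + 1) *
          Real.exp (-(c' * ((N + N0 : ℕ) : ℝ) ^ η)))) := by
      intro N
      have := key (N + N0) (by omega)
      rw [← ENNReal.ofReal_toReal (measure_ne_top P (bad (N + N0)))]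
      exact ENNReal.ofReal_le_ofReal this
    have hs2 := (summable_nat_add_iff N0).mpr hsumm
    refine ne_top_of_le_ne_top ?_ (ENNReal.tsum_le_tsum hle)
    exact hs2.tsum_ofReal_ne_top
  have hae := ae_eventually_notMem hfin
  filter_upwards [hae] with ω hω
  rw [eventually_atTop] at hω ⊢
  obtain ⟨a, ha⟩ := hω
  refine ⟨a + N0, fun N hN => ?_⟩
  have h10 := ha (N - N0) (by omega)
  rw [hbad] at h10
  simp only [Set.mem_setOf_eq, not_not] at h10
  have h11 : N - N0 + N0 = N := by omega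
  rw [h11] at h10
  exact h10

end Pool.Agent.SmW
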